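import Pool.Agent.TH212.EH.A6
import Pool.Agent.TH894.PV6

set_option autoImplicit false

/-! The variance of the primes in the classes of the moduli of a thin family: preparations. -/

namespace Pool.Agent.TH212.HV
open Finset Polynomial
open Pool.Agent.TH212.EH (En S1 S2 markov large maxi)
open Pool.Agent.H373R2.T7 (lamI lamzI energy ev_L' Vz Vz_inv_small lamz lamz_nonneg lamI_nonneg lamzI_nonneg)
open Pool.Agent.W93.AU (dI)
open Pool.Agent.TH894.PA (cz)
open Pool.Agent.TH894.PV (G det_var)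

/-- multiples of a family -/
lemma En_mul (p : ℕ) {ι : Type} [Fintype ι] (v : ι → ℤ) (h : ℤ) (hh : h ≠ 0) :
    En p (fun i => h * v i) = En p v := by
  unfold En
  apply Nat.card_congr
  apply Equiv.subtypeEquivRight
  intro q
  rw [← mul_sum, ← mul_sum]
  exact mul_right_inj' hh

/-- the members of absolute value `< T` -/
lemma small_members (p T : ℕ) {ι : Type} [Fintype ι] (v : ι → ℤ) (S : Finset ι) (hS : ∀ i ∈ S, |v i| ≤ T) :
    (S.card : ℝ) ^ (2 * p) ≤ (2 * p * T + 1) * En p v := by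
  classical
  obtain ⟨Ω, hΩ⟩ : ∃ Ω : Finset (Fin p → ι), Ω = Fintype.piFinset (fun _ => S) := ⟨_, rfl⟩
  have hΩc : Ω.card = S.card ^ p := by
    rw [hΩ, Fintype.card_piFinset, prod_const, card_univ, Fintype.card_fin]
  obtain ⟨g, hg⟩ : ∃ g : (Fin p → ι) → ℤ, g = fun q => ∑ j, v (q j) := ⟨_, rfl⟩
  obtain ⟨R, hR⟩ : ∃ R : Finset ℤ, R = Finset.Icc (-(p * T : ℤ)) (p * T) := ⟨_, rfl⟩
  have hgR : ∀ q ∈ Ω, g q ∈ R := by
    intro q hq
    rw [hΩ, Fintype.mem_piFinset] at hq
    have h1 : |g q| ≤ p * T := by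
      rw [hg]
      refine (abs_sum_le_sum_abs _ _).trans ?_
      refine (sum_le_sum fun j _ => hS _ (hq j)).trans ?_
      rw [sum_const, card_univ, Fintype.card_fin, nsmul_eq_mul]
    rw [hR, mem_Icc]
    exact abs_le.1 h1
  have hRc : (R.card : ℝ) = 2 * p * T + 1 := by
    rw [hR, Int.card_Icc]
    have h1 : ((p * T : ℤ) + 1 - -(p * T : ℤ)).toNat = 2 * p * T + 1 := by
      have : ((p * T : ℤ) + 1 - -(p * T : ℤ)) = ((2 * p * T + 1 : ℕ) : ℤ) := by push_cast; ring
      rw [this, Int.toNat_natCast]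
    rw [h1]
    push_cast
    ring
  have h1 : (Ω.card : ℝ) = ∑ t ∈ R, ((Ω.filter (fun q => g q = t)).card : ℝ) := by
    rw [card_eq_sum_card_fiberwise hgR]
    push_cast
    rfl
  have h2 : (Ω.card : ℝ) ^ 2 ≤ R.card * ∑ t ∈ R, ((Ω.filter (fun q => g q = t)).card : ℝ) ^ 2 := by
    rw [h1]
    exact sq_sum_le_card_mul_sum_sq
  have h3 : ∑ t ∈ R, ((Ω.filter (fun q => g q = t)).card : ℝ) ^ 2 ≤ En p v := by
    have h4 : ∑ t ∈ R, ((Ω.filter (fun q => g q = t)).card) ^ 2 ≤ En p v := by
      have h5 : ∑ t ∈ R, ((Ω.filter (fun q => g q = t)).card) ^ 2 =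
          (R.biUnion (fun t => (Ω.filter (fun q => g q = t)) ×ˢ (Ω.filter (fun q => g q = t)))).card := by
        rw [card_biUnion]
        · apply sum_congr rfl
          intro t _
          rw [card_product, pow_two]
        · intro t _ t' _ hne
          rw [Function.onFun, disjoint_left]
          intro q hq hq'
          rw [mem_product, mem_filter, mem_filter] at hq hq'
          exact hne (hq.1.2.symm.trans hq'.1.2)
      rw [h5]
      unfold En
      rw [Nat.card_eq_fintype_card, Fintype.card_subtype]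
      apply card_le_card
      intro q hq
      rw [mem_biUnion] at hq
      obtain ⟨t, _, hq⟩ := hq
      rw [mem_product, mem_filter, mem_filter] at hq
      rw [mem_filter]
      refine ⟨mem_univ _, ?_⟩
      have e1 := hq.1.2
      have e2 := hq.2.2
      rw [hg] at e1 e2
      exact e1.trans e2.symm
    exact_mod_cast h4
  calc (S.card : ℝ) ^ (2 * p) = (Ω.card : ℝ) ^ 2 := by rw [hΩc]; push_cast; ring
    _ ≤ R.card * ∑ t ∈ R, ((Ω.filter (fun q => g q = t)).card : ℝ) ^ 2 := h2
    _ ≤ R.card * En p v := mul_le_mul_of_nonneg_left h3 (by positivity)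
    _ = _ := by rw [hRc]

end Pool.Agent.TH212.HV
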