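import Pool.Agent.TH212.HV.A1

set_option autoImplicit false

/-! The variance of the primes in the classes of the moduli of a thin family: almost all members. -/

namespace Pool.Agent.TH212.HV
open Finset Polynomial
open Pool.Agent.TH212.EH (En S1 S2 markov large maxi)
open Pool.Agent.H373R2.T7 (lamI lamzI energy ev_L' Vz Vz_inv_small lamz lamz_nonneg lamI_nonneg lamzI_nonneg)
open Pool.Agent.W93.AU (dI)
open Pool.Agent.TH894.PA (cz)
open Pool.Agent.TH894.PV (G det_var)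

lemma S1_cz (N z A y : ℕ) (hA : A ≤ N) :
    S1 (fun n => if n ≤ N then ArithmeticFunction.vonMangoldt n else 0) z A (y : ℤ) = cz z A y := by
  unfold S1 cz dI
  apply sum_congr rfl
  intro n hn
  rw [mem_Icc] at hn
  simp only
  rw [if_pos (hn.2.trans hA)]

/-- the bad members for one `h` -/
lemma one_h (p C κ U : ℕ) : ∃ B0 : ℕ, ∀ E : ℕ, ∃ Y₀ : ℕ, ∀ Y : ℕ, Y₀ ≤ Y → ∀ (ι : Type) [Fintype ι] (v : ι → ℤ),
    (∀ i, |v i| ≤ Y) → (En p v : ℝ) * Y ≤ Real.log Y ^ C * (Fintype.card ι : ℝ) ^ (2 * p) →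
    ∀ z : ℕ, Real.log Y ^ B0 ≤ z → (z : ℝ) ≤ Real.log Y ^ E → ∀ h : ℕ, 1 ≤ h → (h : ℝ) ≤ Real.log Y ^ κ →
    ∀ A : ι → ℕ, (∀ i, (A i : ℝ) ≤ Y * Real.log Y ^ κ) →
    ∑ i ∈ univ.filter (fun i => 0 ≤ v i), |cz z (A i) (h * (v i).toNat)| ≤ Y * Fintype.card ι / Real.log Y ^ U := by
  classical
  obtain ⟨B1, h1⟩ := maxi p 1 (C + κ + 1) 1 (U + κ + 1)
  refine ⟨B1 + 1, fun E => ?_⟩
  obtain ⟨N0, h0⟩ := h1 E
  obtain ⟨n1, hn1⟩ := large (max 4 ((2 : ℝ) ^ B1)) (N0 + 4)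
  obtain ⟨n2, hn2⟩ := Pool.Agent.H373R2.T7.ev_log' (2 * κ + 2) 1
  refine ⟨n1 + n2, fun Y hY ι _ v hv hE z hz1 hz2 h hh1 hh2 A hA => ?_⟩
  obtain ⟨hY0, hLK, hL1⟩ := hn1 Y (by omega)
  have a2 := hn2 Y (by omega)
  obtain ⟨L, hL⟩ : ∃ L, L = Real.log (Y : ℝ) := ⟨_, rfl⟩
  rw [← hL] at hLK hL1 hE hz1 hz2 hh2 hA a2 ⊢
  rw [one_mul] at a2
  have hL4 : 4 ≤ L := (le_max_left _ _).trans hLK
  have hL2B : (2 : ℝ) ^ B1 ≤ L := (le_max_right _ _).trans hLK
  have hL0 : 0 < L := by linarith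
  have hYp : (0 : ℝ) < Y := by exact_mod_cast (by omega : 0 < Y)
  obtain ⟨N, hN⟩ : ∃ N : ℕ, N = ⌈(Y : ℝ) * L ^ κ⌉₊ := ⟨_, rfl⟩
  have hLκ1 : 1 ≤ L ^ κ := one_le_pow₀ hL1
  have hN1 : (Y : ℝ) * L ^ κ ≤ N := by rw [hN]; exact Nat.le_ceil _
  have hN2 : (N : ℝ) ≤ 2 * (Y * L ^ κ) := by
    have q1 : (N : ℝ) < Y * L ^ κ + 1 := by rw [hN]; exact Nat.ceil_lt_add_one (by positivity)
    have q2 : (1 : ℝ) ≤ Y * L ^ κ := by
      have : (1 : ℝ) ≤ Y := by exact_mod_cast (by omega : 1 ≤ Y)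
      nlinarith
    linarith
  have hYN : (Y : ℝ) ≤ N := (le_mul_of_one_le_right hYp.le hLκ1).trans hN1
  have hYNn : Y ≤ N := by exact_mod_cast hYN
  have hNp : (0 : ℝ) < N := lt_of_lt_of_le hYp hYN
  have hlog1 : L ≤ Real.log N := by rw [hL]; exact Real.log_le_log hYp hYN
  have hlog2 : Real.log N ≤ 2 * L := by
    have q1 : (N : ℝ) ≤ Y * √Y := by
      have q2 : 2 * L ^ κ ≤ √Y := by
        have q3 : 2 * L ^ κ ≤ L ^ (2 * κ + 2) := by
          calc 2 * L ^ κ ≤ L * L ^ κ := mul_le_mul_of_nonneg_right (by linarith) (by positivity)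
            _ = L ^ (κ + 1) := by ring
            _ ≤ _ := pow_le_pow_right₀ hL1 (by omega)
        exact q3.trans a2
      calc (N : ℝ) ≤ Y * (2 * L ^ κ) := by linarith
        _ ≤ Y * √Y := mul_le_mul_of_nonneg_left q2 hYp.le
    have q2 := Real.log_le_log hNp q1
    rw [Real.log_mul hYp.ne' (Real.sqrt_pos.2 hYp).ne', Real.log_sqrt hYp.le, ← hL] at q2
    linarith
  have hlogp : 0 < Real.log N := by linarith
  -- the hypotheses
  have hv' : ∀ i, |(h : ℤ) * v i| ≤ ((1 : ℕ) : ℤ) * N := by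
    intro i
    have q1 : |(h : ℤ) * v i| = h * |v i| := by rw [abs_mul, Nat.abs_cast]
    have q2 : ((h * |v i| : ℤ) : ℝ) ≤ ((N : ℤ) : ℝ) := by
      have q3 : ((|v i| : ℤ) : ℝ) ≤ Y := by exact_mod_cast hv i
      push_cast at q3 ⊢
      calc (h : ℝ) * |(v i : ℝ)| ≤ L ^ κ * Y := mul_le_mul hh2 q3 (abs_nonneg _) (by positivity)
        _ = Y * L ^ κ := mul_comm _ _
        _ ≤ N := hN1
    rw [q1]
    have q3 : (h * |v i| : ℤ) ≤ N := by exact_mod_cast q2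
    push_cast
    linarith
  have hE' : (En p (fun i => (h : ℤ) * v i) : ℝ) * N ≤ Real.log N ^ (C + κ + 1) * (Fintype.card ι : ℝ) ^ (2 * p) := by
    rw [En_mul p v h (by omega)]
    have q1 : (En p v : ℝ) * N ≤ (En p v : ℝ) * (2 * (Y * L ^ κ)) := mul_le_mul_of_nonneg_left hN2 (Nat.cast_nonneg _)
    have q2 : (En p v : ℝ) * (2 * (Y * L ^ κ)) = 2 * L ^ κ * (En p v * Y) := by ring
    have q3 : 2 * L ^ κ * ((En p v : ℝ) * Y) ≤ 2 * L ^ κ * (L ^ C * (Fintype.card ι : ℝ) ^ (2 * p)) :=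
      mul_le_mul_of_nonneg_left hE (by positivity)
    have q4 : 2 * L ^ κ * (L ^ C * (Fintype.card ι : ℝ) ^ (2 * p)) ≤ L ^ (C + κ + 1) * (Fintype.card ι : ℝ) ^ (2 * p) := by
      have q5 : 2 * L ^ κ * L ^ C ≤ L ^ (C + κ + 1) := by
        calc 2 * L ^ κ * L ^ C ≤ L * L ^ κ * L ^ C := by
              apply mul_le_mul_of_nonneg_right _ (by positivity)
              exact mul_le_mul_of_nonneg_right (by linarith) (by positivity)
          _ = _ := by ring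
      calc _ = (2 * L ^ κ * L ^ C) * (Fintype.card ι : ℝ) ^ (2 * p) := by ring
        _ ≤ _ := mul_le_mul_of_nonneg_right q5 (by positivity)
    have q5 : L ^ (C + κ + 1) * (Fintype.card ι : ℝ) ^ (2 * p) ≤ Real.log N ^ (C + κ + 1) * (Fintype.card ι : ℝ) ^ (2 * p) :=
      mul_le_mul_of_nonneg_right (pow_le_pow_left₀ hL0.le hlog1 _) (by positivity)
    linarith
  have hz1' : Real.log N ^ B1 ≤ z := by
    calc Real.log N ^ B1 ≤ (2 * L) ^ B1 := pow_le_pow_left₀ hlogp.le hlog2 _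
      _ = 2 ^ B1 * L ^ B1 := mul_pow _ _ _
      _ ≤ L * L ^ B1 := mul_le_mul_of_nonneg_right hL2B (by positivity)
      _ = L ^ (B1 + 1) := by ring
      _ ≤ z := hz1
  have hz2' : (z : ℝ) ≤ Real.log N ^ E := hz2.trans (pow_le_pow_left₀ hL0.le hlog1 _)
  have hAN : ∀ i, A i ≤ N := by
    intro i
    exact_mod_cast (hA i).trans hN1
  have key := (h0 N (by omega) ι (fun i => (h : ℤ) * v i) hv' hE' z hz1' hz2'
    (fun n => if n ≤ N then ArithmeticFunction.vonMangoldt n else 0) (by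
      intro n
      rw [pow_one]
      split_ifs with hn
      · rw [abs_of_nonneg ArithmeticFunction.vonMangoldt_nonneg]
        refine ArithmeticFunction.vonMangoldt_le_log.trans ?_
        rcases Nat.eq_zero_or_pos n with h2 | h2
        · rw [h2]; simpa using hlogp.le
        · exact Real.log_le_log (by exact_mod_cast h2) (by exact_mod_cast hn)
      · rw [abs_zero]; exact hlogp.le) A (fun i => by rw [one_mul]; exact hAN i)).1
  have e1 : ∑ i ∈ univ.filter (fun i => 0 ≤ v i), |cz z (A i) (h * (v i).toNat)| ≤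
      ∑ i, |S1 (fun n => if n ≤ N then ArithmeticFunction.vonMangoldt n else 0) z (A i) ((h : ℤ) * v i)| := by
    rw [sum_filter]
    apply sum_le_sum
    intro i _
    split_ifs with hi
    · apply le_of_eq
      have q1 : (h : ℤ) * v i = ((h * (v i).toNat : ℕ) : ℤ) := by
        push_cast
        rw [Int.toNat_of_nonneg hi]
      rw [q1, S1_cz N z (A i) _ (hAN i)]
    · exact abs_nonneg _
  refine e1.trans (key.trans ?_)
  have q1 : (N : ℝ) * Fintype.card ι / Real.log N ^ (U + κ + 1) ≤ (2 * (Y * L ^ κ)) * Fintype.card ι / L ^ (U + κ + 1) := by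
    apply div_le_div₀ (by positivity)
    · exact mul_le_mul_of_nonneg_right hN2 (by positivity)
    · positivity
    · exact pow_le_pow_left₀ hL0.le hlog1 _
  refine q1.trans ?_
  rw [div_le_div_iff₀ (by positivity) (by positivity)]
  calc 2 * (Y * L ^ κ) * Fintype.card ι * L ^ U = 2 * (Y * Fintype.card ι * (L ^ κ * L ^ U)) := by ring
    _ ≤ L * (Y * Fintype.card ι * (L ^ κ * L ^ U)) := mul_le_mul_of_nonneg_right (by linarith) (by positivity)
    _ = Y * Fintype.card ι * L ^ (U + κ + 1) := by ring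

/-- Few members of a thin family are bad, where a member `Q ≥ Y / log ^ κ Y` is bad if the asymptotic formula fails for
some `x` between `Q` and `Q log ^ κ Y`. -/
theorem fam1 (p C κ U : ℕ) (ε : ℝ) (hε : 0 < ε) (hε1 : ε ≤ 1) : ∃ Y₀ : ℕ, ∀ Y : ℕ, Y₀ ≤ Y →
    ∀ (ι : Type) [Fintype ι] [DecidableEq ι] (v : ι → ℤ), (∀ i, |v i| ≤ Y) → (En p v : ℝ) * Y ≤ Real.log Y ^ C * (Fintype.card ι : ℝ) ^ (2 * p) →
    ∀ S : Finset ι, (∀ i ∈ S, 0 ≤ v i ∧ (Y : ℝ) ≤ (v i).toNat * Real.log Y ^ κ ∧ ∃ x : ℝ, ((v i).toNat : ℝ) ≤ x ∧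
      x ≤ (v i).toNat * Real.log Y ^ κ ∧ ε * (x * Real.log (v i).toNat) < |G x (v i).toNat - x * Real.log (v i).toNat|) →
    (S.card : ℝ) ≤ Fintype.card ι / Real.log Y ^ U := by
  classical
  obtain ⟨B0, h1⟩ := one_h p C κ (3 * κ + U)
  obtain ⟨Bz, hBz⟩ : ∃ Bz, Bz = B0 + κ + 2 := ⟨_, rfl⟩
  obtain ⟨n1, h1⟩ := h1 (Bz + 1)
  obtain ⟨n2, h2⟩ := det_var κ ε hε hε1 (Bz + 1)
  obtain ⟨n3, h3⟩ := large 2 4
  refine ⟨n1 + n2 + n3, fun Y hY ι _ _ v hv hE S hS => ?_⟩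
  obtain ⟨hY4, hL2, hL1⟩ := h3 Y (by omega)
  obtain ⟨z, hz⟩ : ∃ z : ℕ, z = ⌈Real.log Y ^ Bz⌉₊ := ⟨_, rfl⟩
  have c1 := h1 Y (by omega) ι v hv hE z
  have c2 := h2 Y (by omega) z
  obtain ⟨L, hL⟩ : ∃ L, L = Real.log (Y : ℝ) := ⟨_, rfl⟩
  rw [← hL] at hL2 hL1 hz c1 c2 hS ⊢
  have hL0 : 0 < L := by linarith
  have hYp : (0 : ℝ) < Y := by exact_mod_cast (by omega : 0 < Y)
  have hz1 : L ^ Bz ≤ z := by rw [hz]; exact Nat.le_ceil _
  have hz2 : (z : ℝ) ≤ L ^ (Bz + 1) := by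
    have q1 : (z : ℝ) < L ^ Bz + 1 := by rw [hz]; exact Nat.ceil_lt_add_one (by positivity)
    have q2 : 1 ≤ L ^ Bz := one_le_pow₀ hL1
    calc (z : ℝ) ≤ 2 * L ^ Bz := by linarith
      _ ≤ L * L ^ Bz := mul_le_mul_of_nonneg_right hL2 (by positivity)
      _ = _ := by ring
  have c1' := c1 ((pow_le_pow_right₀ hL1 (by omega)).trans hz1) hz2
  have c2' := c2 ((pow_le_pow_right₀ hL1 (by omega)).trans hz1) hz2
  obtain ⟨Hm, hHm⟩ : ∃ Hm : ℕ, Hm = ⌊L ^ κ⌋₊ := ⟨_, rfl⟩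
  -- the bad lengths
  obtain ⟨P, hP⟩ : ∃ P : ℕ → ι → ℕ → Prop, P = fun (h : ℕ) (i : ι) (A : ℕ) => (A : ℝ) ≤ Y * L ^ κ ∧
      (Y : ℝ) / L ^ (2 * κ) < |cz z A (h * (v i).toNat)| := ⟨_, rfl⟩
  have hPd : ∀ h i a, P h i a ↔ (a : ℝ) ≤ Y * L ^ κ ∧ (Y : ℝ) / L ^ (2 * κ) < |cz z a (h * (v i).toNat)| := by
    intro h i a
    rw [hP]
  obtain ⟨A, hA⟩ : ∃ A : ℕ → ι → ℕ, A = fun h i => if hh : ∃ a, P h i a then hh.choose else 0 := ⟨_, rfl⟩
  have hA1 : ∀ h i, (A h i : ℝ) ≤ Y * L ^ κ := by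
    intro h i
    rw [hA]
    simp only
    split_ifs with hh
    · exact ((hPd _ _ _).1 hh.choose_spec).1
    · rw [Nat.cast_zero]; positivity
  obtain ⟨T, hT⟩ : ∃ T : ℕ → Finset ι, T = fun h => S.filter (fun i => ∃ a, P h i a) := ⟨_, rfl⟩
  have hTb : ∀ h ∈ Icc 1 Hm, ((T h).card : ℝ) ≤ Fintype.card ι / L ^ (κ + U) := by
    intro h hh
    rw [mem_Icc] at hh
    have hhL : (h : ℝ) ≤ L ^ κ := by
      refine le_trans ?_ (Nat.floor_le (by positivity : 0 ≤ L ^ κ))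
      rw [← hHm]
      exact_mod_cast hh.2
    have q1 := c1' h hh.1 hhL (A h) (hA1 h)
    have q2 : ((T h).card : ℝ) * (Y / L ^ (2 * κ)) ≤ ∑ i ∈ univ.filter (fun i => 0 ≤ v i), |cz z (A h i) (h * (v i).toNat)| := by
      have q3 : ((T h).card : ℝ) * (Y / L ^ (2 * κ)) = ∑ i ∈ T h, (Y : ℝ) / L ^ (2 * κ) := by
        rw [sum_const, nsmul_eq_mul]
      rw [q3]
      have q4 : ∀ i ∈ T h, (Y : ℝ) / L ^ (2 * κ) ≤ |cz z (A h i) (h * (v i).toNat)| := by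
        intro i hi
        rw [hT] at hi
        simp only [mem_filter] at hi
        have q5 : P h i (A h i) := by
          rw [hA]
          simp only
          rw [dif_pos hi.2]
          exact hi.2.choose_spec
        exact ((hPd _ _ _).1 q5).2.le
      refine (sum_le_sum q4).trans ?_
      apply sum_le_sum_of_subset_of_nonneg
      · intro i hi
        rw [hT] at hi
        simp only [mem_filter] at hi
        rw [mem_filter]
        exact ⟨mem_univ _, (hS i hi.1).1⟩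
      · intro i _ _
        exact abs_nonneg _
    have q3 := q2.trans q1
    rw [le_div_iff₀ (by positivity)]
    rw [le_div_iff₀ (by positivity)] at q3
    have q4 : ((T h).card : ℝ) * (Y / L ^ (2 * κ)) * L ^ (3 * κ + U) = (((T h).card : ℝ) * L ^ (κ + U)) * Y := by
      rw [show 3 * κ + U = 2 * κ + (κ + U) by ring, pow_add L (2 * κ)]
      field_simp
    rw [q4] at q3
    have q5 : (Y : ℝ) * Fintype.card ι = Fintype.card ι * Y := mul_comm _ _
    rw [q5] at q3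
    exact le_of_mul_le_mul_right q3 hYp
  have hsub : S ⊆ (Icc 1 Hm).biUnion T := by
    intro i hi
    obtain ⟨hv0, hvY, x, hx1, hx2, hx3⟩ := hS i hi
    by_contra hcon
    rw [mem_biUnion] at hcon
    push Not at hcon
    have hQY : (v i).toNat ≤ Y := by
      have := (abs_le.1 (hv i)).2
      omega
    have := c2' (v i).toNat hQY hvY x hx1 hx2 (by
      intro h hh1 hh2 N₁ hN₁
      have q1 : h ∈ Icc 1 Hm := by
        rw [mem_Icc, hHm]
        exact ⟨hh1, Nat.le_floor hh2⟩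
      have q2 := hcon h q1
      rw [hT] at q2
      simp only [mem_filter, not_and, not_exists] at q2
      have q3 := q2 hi N₁
      by_contra hc
      exact q3 ((hPd _ _ _).2 ⟨hN₁, not_le.1 hc⟩))
    linarith
  have hHmL : (Hm : ℝ) ≤ L ^ κ := by rw [hHm]; exact Nat.floor_le (by positivity)
  calc (S.card : ℝ) ≤ (((Icc 1 Hm).biUnion T).card : ℝ) := by exact_mod_cast card_le_card hsub
    _ ≤ ∑ h ∈ Icc 1 Hm, ((T h).card : ℝ) := by exact_mod_cast card_biUnion_le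
    _ ≤ ∑ h ∈ Icc 1 Hm, (Fintype.card ι / L ^ (κ + U) : ℝ) := sum_le_sum hTb
    _ = Hm * (Fintype.card ι / L ^ (κ + U)) := by rw [sum_const, Nat.card_Icc, nsmul_eq_mul]; simp
    _ ≤ L ^ κ * (Fintype.card ι / L ^ (κ + U)) := mul_le_mul_of_nonneg_right hHmL (by positivity)
    _ = Fintype.card ι / L ^ U := by rw [pow_add]; field_simp

end Pool.Agent.TH212.HV
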