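import Pool.Agent.TH212.HV.A2

set_option autoImplicit false

/-! The variance of the primes in the classes of the moduli of a thin family: the final form. -/

namespace Pool.Agent.TH212.HV
open Finset Polynomial
open Pool.Agent.TH212.EH (En S1 S2 markov large maxi poly_hyp)
open Pool.Agent.H373R2.T7 (lamI lamzI energy ev_L' Vz Vz_inv_small lamz lamz_nonneg lamI_nonneg lamzI_nonneg)
open Pool.Agent.TH894.PV (G)

/-- `|G(x,Q) - x log Q| ≤ ε x log Q` for all real `x` with `x / log ^ κ x ≤ Q ≤ x` -/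
def Hooley (ε : ℝ) (κ Q : ℕ) : Prop :=
  ∀ x : ℝ, (Q : ℝ) ≤ x → x ≤ Q * Real.log x ^ κ → |G x Q - x * Real.log Q| ≤ ε * (x * Real.log Q)

lemma log_pow_le (κ : ℕ) : ∃ x₁ : ℝ, 1 ≤ x₁ ∧ ∀ x : ℝ, x₁ ≤ x → Real.log x ^ κ ≤ √x := by
  have h := (Real.isLittleO_pow_log_id_atTop (n := 2 * κ)).bound (c := 1) one_pos
  rw [Filter.eventually_atTop] at h
  obtain ⟨a, ha⟩ := h
  refine ⟨max a 1, le_max_right _ _, fun x hx => ?_⟩
  have hx1 : 1 ≤ x := (le_max_right _ _).trans hx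
  have h2 := ha x ((le_max_left _ _).trans hx)
  have hl : 0 ≤ Real.log x := Real.log_nonneg hx1
  rw [one_mul, Real.norm_of_nonneg (pow_nonneg hl _), id, Real.norm_of_nonneg (by linarith)] at h2
  apply Real.le_sqrt_of_sq_le
  rw [← pow_mul, mul_comm κ 2]
  exact h2

lemma En_zero {ι : Type} [Fintype ι] (v : ι → ℤ) : En 0 v = 1 := by
  unfold En
  rw [Nat.card_eq_one_iff_unique]
  refine ⟨⟨fun a b => ?_⟩, ⟨⟨(fun i => i.elim0, fun i => i.elim0), by simp⟩⟩⟩
  apply Subtype.ext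
  apply Prod.ext
  · funext i
    exact i.elim0
  · funext i
    exact i.elim0

theorem fam2 (p C κ U Q₀ : ℕ) (ε : ℝ) (hε : 0 < ε) : ∃ Y₀ : ℕ, ∀ Y : ℕ, Y₀ ≤ Y →
    ∀ (ι : Type) [Fintype ι] (v : ι → ℤ), (∀ i, |v i| ≤ Y) → (En p v : ℝ) * Y ≤ Real.log Y ^ C * (Fintype.card ι : ℝ) ^ (2 * p) →
    ∀ S : Finset ι, (∀ i ∈ S, ¬ (Q₀ ≤ (v i).natAbs ∧ Hooley ε κ (v i).natAbs)) → (S.card : ℝ) ≤ Fintype.card ι / Real.log Y ^ U := by
  classical
  obtain ⟨κ₁, hκ₁⟩ : ∃ κ₁, κ₁ = κ + C + 2 * p * (U + 1) + 2 := ⟨_, rfl⟩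
  obtain ⟨n1, h1⟩ := fam1 p C κ₁ (U + 1) (min ε 1) (lt_min hε one_pos) (min_le_right _ _)
  obtain ⟨x₁, hx₁, h2⟩ := log_pow_le κ
  obtain ⟨n3, h3⟩ := large (max (max 3 (2 ^ κ)) (2 * p + 1)) (⌈x₁⌉₊ + 4 + (Q₀ + 1) * (Q₀ + 1))
  obtain ⟨n4, h4⟩ := Pool.Agent.H373R2.T7.ev_log' (κ₁ + C + 2) 1
  refine ⟨n1 + n3 + n4, fun Y hY ι _ v hv hE S hS => ?_⟩
  obtain ⟨hYx, hLK, hL1⟩ := h3 Y (by omega)
  have a4 := h4 Y (by omega)
  have c1 := h1 Y (by omega) ι
  obtain ⟨L, hL⟩ : ∃ L, L = Real.log (Y : ℝ) := ⟨_, rfl⟩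
  rw [← hL] at hLK hL1 a4 c1 hE ⊢
  rw [one_mul] at a4
  have hL3 : 3 ≤ L := ((le_max_left _ _).trans (le_max_left _ _)).trans hLK
  have hL2κ : (2 : ℝ) ^ κ ≤ L := ((le_max_right _ _).trans (le_max_left _ _)).trans hLK
  have hLp : 2 * (p : ℝ) + 1 ≤ L := (le_max_right _ _).trans hLK
  have hL0 : 0 < L := by linarith
  have hYp : (0 : ℝ) < Y := by exact_mod_cast (by omega : 0 < Y)
  have hY1 : (1 : ℝ) ≤ Y := by exact_mod_cast (by omega : 1 ≤ Y)
  have hYx' : x₁ ≤ Y := (Nat.le_ceil _).trans (by exact_mod_cast (by omega : ⌈x₁⌉₊ ≤ Y))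
  have hsq : √(Y : ℝ) ≤ Y := by
    rw [Real.sqrt_le_left hYp.le]
    nlinarith
  have hLκY : L ^ (κ₁ + C + 2) ≤ Y := a4.trans hsq
  have hι0 : (0 : ℝ) ≤ Fintype.card ι := Nat.cast_nonneg _
  -- the small members
  obtain ⟨T, hT⟩ : ∃ T : ℕ, T = ⌊(Y : ℝ) / L ^ κ₁⌋₊ := ⟨_, rfl⟩
  have hS0 : ((S.filter (fun i => |v i| ≤ T)).card : ℝ) ≤ Fintype.card ι / L ^ (U + 1) := by
    rcases Nat.eq_zero_or_pos p with hp | hp
    · exfalso
      subst hp
      rw [En_zero] at hE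
      simp only [Nat.cast_one, one_mul, mul_zero, pow_zero, mul_one] at hE
      have q1 : L ^ C * L ≤ L ^ (κ₁ + C + 2) := by
        rw [← pow_succ]
        exact pow_le_pow_right₀ hL1 (by omega)
      have q2 : 0 < L ^ C := by positivity
      nlinarith
    · have q1 := small_members p T v (S.filter (fun i => |v i| ≤ T)) (fun i hi => (mem_filter.1 hi).2)
      have hTr : (T : ℝ) ≤ Y / L ^ κ₁ := by rw [hT]; exact Nat.floor_le (by positivity)
      have hYL : 1 ≤ (Y : ℝ) / L ^ κ₁ := by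
        rw [le_div_iff₀ (by positivity), one_mul]
        exact (pow_le_pow_right₀ hL1 (by omega)).trans hLκY
      have q2 : 2 * (p : ℝ) * T + 1 ≤ L * (Y / L ^ κ₁) := by
        have : 2 * (p : ℝ) * T ≤ 2 * p * (Y / L ^ κ₁) := mul_le_mul_of_nonneg_left hTr (by positivity)
        nlinarith
      have q3 : (((S.filter (fun i => |v i| ≤ T)).card : ℝ)) ^ (2 * p) ≤ (Fintype.card ι / L ^ (U + 1)) ^ (2 * p) := by
        calc (((S.filter (fun i => |v i| ≤ T)).card : ℝ)) ^ (2 * p) ≤ (2 * p * T + 1) * En p v := q1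
          _ ≤ (L * (Y / L ^ κ₁)) * En p v := mul_le_mul_of_nonneg_right q2 (Nat.cast_nonneg _)
          _ = L / L ^ κ₁ * (En p v * Y) := by ring
          _ ≤ L / L ^ κ₁ * (L ^ C * (Fintype.card ι : ℝ) ^ (2 * p)) := mul_le_mul_of_nonneg_left hE (by positivity)
          _ = (L ^ (C + 1) / L ^ κ₁) * (Fintype.card ι : ℝ) ^ (2 * p) := by ring
          _ ≤ (1 / L ^ ((U + 1) * (2 * p))) * (Fintype.card ι : ℝ) ^ (2 * p) := by
              apply mul_le_mul_of_nonneg_right _ (by positivity)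
              rw [div_le_div_iff₀ (by positivity) (by positivity), one_mul, ← pow_add]
              apply pow_le_pow_right₀ hL1
              have : (U + 1) * (2 * p) = 2 * p * (U + 1) := by ring
              omega
          _ = _ := by rw [div_pow, ← pow_mul]; ring
      exact le_of_pow_le_pow_left₀ (by omega) (by positivity) q3
  -- the two signs
  have hS1 : ((S.filter (fun i => ¬ |v i| ≤ T ∧ 0 ≤ v i)).card : ℝ) ≤ Fintype.card ι / L ^ (U + 1) ∧
      ((S.filter (fun i => ¬ |v i| ≤ T ∧ v i < 0)).card : ℝ) ≤ Fintype.card ι / L ^ (U + 1) := by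
    have bad : ∀ i ∈ S, ¬ |v i| ≤ T → (Y : ℝ) ≤ (v i).natAbs * L ^ κ₁ ∧ ∃ x : ℝ, ((v i).natAbs : ℝ) ≤ x ∧
        x ≤ (v i).natAbs * L ^ κ₁ ∧ min ε 1 * (x * Real.log (v i).natAbs) < |G x (v i).natAbs - x * Real.log (v i).natAbs| := by
      intro i hi hbig
      have hbad := hS i hi
      obtain ⟨Q, hQ⟩ : ∃ Q, Q = (v i).natAbs := ⟨_, rfl⟩
      rw [← hQ] at hbad ⊢
      have hQT : T < Q := by
        have : (T : ℤ) < |v i| := not_le.1 hbig
        rw [Int.abs_eq_natAbs, ← hQ] at this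
        exact_mod_cast this
      have hQY : (Q : ℝ) ≤ Y := by
        have := hv i
        rw [Int.abs_eq_natAbs, ← hQ] at this
        exact_mod_cast this
      have hYQ : (Y : ℝ) ≤ Q * L ^ κ₁ := by
        have q1 : (Y : ℝ) / L ^ κ₁ < Q := by
          rw [hT] at hQT
          exact (Nat.floor_lt (by positivity)).1 hQT
        rw [div_lt_iff₀ (by positivity)] at q1
        exact q1.le
      refine ⟨hYQ, ?_⟩
      have hsQ : √(Y : ℝ) ≤ Q := by
        have hs0 : 0 < √(Y : ℝ) := Real.sqrt_pos.2 hYp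
        have q1 : √(Y : ℝ) * L ^ κ₁ ≤ Q * L ^ κ₁ := by
          calc √(Y : ℝ) * L ^ κ₁ ≤ √Y * √Y := mul_le_mul_of_nonneg_left ((pow_le_pow_right₀ hL1 (by omega)).trans a4) hs0.le
            _ = Y := Real.mul_self_sqrt hYp.le
            _ ≤ _ := hYQ
        exact le_of_mul_le_mul_right q1 (by positivity)
      have hQQ : Q₀ + 1 ≤ Q := by
        have q1 : ((Q₀ + 1 : ℕ) : ℝ) ≤ √(Y : ℝ) := by
          apply Real.le_sqrt_of_sq_le
          rw [pow_two]
          exact_mod_cast (by omega : (Q₀ + 1) * (Q₀ + 1) ≤ Y)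
        exact_mod_cast q1.trans hsQ
      unfold Hooley at hbad
      push Not at hbad
      obtain ⟨x, hx1, hx2, hx3⟩ := hbad (by omega)
      have hQ1 : (1 : ℝ) ≤ Q := by exact_mod_cast (by omega : 1 ≤ Q)
      have hx0 : 1 ≤ x := hQ1.trans hx1
      have hlx0 : 0 ≤ Real.log x := Real.log_nonneg hx0
      have hxY : x ≤ (Y : ℝ) ^ 2 := by
        by_cases hxx : x₁ ≤ x
        · have q1 := h2 x hxx
          have q2 : x ≤ Y * √x := hx2.trans (mul_le_mul hQY q1 (pow_nonneg hlx0 _) hYp.le)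
          have q3 : √x * √x = x := Real.mul_self_sqrt (by linarith)
          have q4 : 0 < √x := Real.sqrt_pos.2 (by linarith)
          have q5 : √x ≤ Y := by
            have : √x * √x ≤ Y * √x := by rw [q3]; exact q2
            exact le_of_mul_le_mul_right this q4
          calc x = √x * √x := q3.symm
            _ ≤ Y * Y := mul_le_mul q5 q5 q4.le hYp.le
            _ = _ := (pow_two _).symm
        · push Not at hxx
          nlinarith
      have hlx : Real.log x ≤ 2 * L := by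
        have q1 := Real.log_le_log (by linarith) hxY
        rw [Real.log_pow, ← hL] at q1
        exact_mod_cast q1
      have hlxκ : Real.log x ^ κ ≤ L ^ κ₁ := by
        calc Real.log x ^ κ ≤ (2 * L) ^ κ := pow_le_pow_left₀ hlx0 hlx _
          _ = 2 ^ κ * L ^ κ := mul_pow _ _ _
          _ ≤ L * L ^ κ := mul_le_mul_of_nonneg_right hL2κ (by positivity)
          _ = L ^ (κ + 1) := by ring
          _ ≤ _ := pow_le_pow_right₀ hL1 (by omega)
      refine ⟨x, hx1, hx2.trans (mul_le_mul_of_nonneg_left hlxκ (by linarith)), lt_of_le_of_lt ?_ hx3⟩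
      apply mul_le_mul_of_nonneg_right (min_le_left _ _)
      exact mul_nonneg (by linarith) (Real.log_nonneg hQ1)
    constructor
    · refine c1 v hv hE _ ?_
      intro i hi
      rw [mem_filter] at hi
      have e : (v i).toNat = (v i).natAbs := by omega
      rw [e]
      exact ⟨hi.2.2, bad i hi.1 hi.2.1⟩
    · refine c1 (fun i => -v i) (fun i => by rw [abs_neg]; exact hv i) ?_ _ ?_
      · have e : En p (fun i => -v i) = En p v := by
          have := En_mul p v (-1) (by norm_num)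
          simpa using this
        rw [e]
        exact hE
      · intro i hi
        rw [mem_filter] at hi
        have e : (-v i).toNat = (v i).natAbs := by omega
        simp only [e]
        exact ⟨by omega, bad i hi.1 hi.2.1⟩
  have hcov : S ⊆ (S.filter (fun i => |v i| ≤ T)) ∪ ((S.filter (fun i => ¬ |v i| ≤ T ∧ 0 ≤ v i)) ∪
      (S.filter (fun i => ¬ |v i| ≤ T ∧ v i < 0))) := by
    intro i hi
    rw [mem_union, mem_union, mem_filter, mem_filter, mem_filter]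
    by_cases h5 : |v i| ≤ T
    · exact Or.inl ⟨hi, h5⟩
    · rcases le_or_gt 0 (v i) with h6 | h6
      · exact Or.inr (Or.inl ⟨hi, h5, h6⟩)
      · exact Or.inr (Or.inr ⟨hi, h5, h6⟩)
  have hc1 : (S.card : ℝ) ≤ (S.filter (fun i => |v i| ≤ T)).card + ((S.filter (fun i => ¬ |v i| ≤ T ∧ 0 ≤ v i)).card +
      (S.filter (fun i => ¬ |v i| ≤ T ∧ v i < 0)).card) := by
    have q1 := (card_le_card hcov).trans ((card_union_le _ _).trans (Nat.add_le_add_left (card_union_le _ _) _))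
    exact_mod_cast q1
  have hfin : 3 * ((Fintype.card ι : ℝ) / L ^ (U + 1)) ≤ Fintype.card ι / L ^ U := by
    rw [pow_succ, ← div_div, mul_div_assoc', div_le_iff₀ hL0]
    have : 0 ≤ (Fintype.card ι : ℝ) / L ^ U := by positivity
    nlinarith
  linarith [hS1.1, hS1.2]

/-- values of polynomials -/
theorem fam_poly (f : ℤ[X]) (hd : 1 ≤ f.natDegree) (B κ U Q₀ : ℕ) (ε : ℝ) (hε : 0 < ε) : ∃ M₀ : ℕ, ∀ M : ℕ, M₀ ≤ M →
    ∀ c : ℤ, |c| ≤ B * ((M ^ f.natDegree : ℕ) : ℤ) → ∀ S : Finset (Fin M),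
      (∀ i ∈ S, ¬ (Q₀ ≤ (c + f.eval (((i : ℕ) + 1 : ℕ) : ℤ)).natAbs ∧ Hooley ε κ (c + f.eval (((i : ℕ) + 1 : ℕ) : ℤ)).natAbs)) → (S.card : ℝ) ≤ M / Real.log M ^ U := by
  obtain ⟨p, B', M0, hBB, hM⟩ := poly_hyp f hd B
  obtain ⟨n1, h1⟩ := fam2 p 2 κ U Q₀ ε hε
  obtain ⟨n2, h2⟩ := large (B' + 1) 3
  refine ⟨M0 + n1 + n2, fun M hMM c hc S hS => ?_⟩
  obtain ⟨k1, k2⟩ := hM M (by omega) c hc
  obtain ⟨hM3, hLB, hL1⟩ := h2 M (by omega)
  obtain ⟨Y, hY⟩ : ∃ Y : ℕ, Y = (B' + 1) * M ^ f.natDegree := ⟨_, rfl⟩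
  have hMp : M ≤ M ^ f.natDegree := Nat.le_self_pow (by omega) M
  have hpY : M ^ f.natDegree ≤ Y := by rw [hY]; exact Nat.le_mul_of_pos_left _ (by omega)
  have hM0 : (0 : ℝ) < M := by exact_mod_cast (by omega : 0 < M)
  have hp0 : (0 : ℝ) < ((M ^ f.natDegree : ℕ) : ℝ) := by exact_mod_cast (by omega : 0 < M ^ f.natDegree)
  have hlY : Real.log M ≤ Real.log Y := Real.log_le_log hM0 (by exact_mod_cast hMp.trans hpY)
  have hlp : Real.log ((M ^ f.natDegree : ℕ) : ℝ) ≤ Real.log Y := Real.log_le_log hp0 (by exact_mod_cast hpY)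
  have hlp0 : 0 ≤ Real.log ((M ^ f.natDegree : ℕ) : ℝ) := Real.log_natCast_nonneg _
  have key := h1 Y (by omega) (Fin M) (fun i : Fin M => c + f.eval (((i : ℕ) + 1 : ℕ) : ℤ)) (by
    intro i
    refine (k1 i).trans ?_
    rw [hY]
    push_cast
    have : (0 : ℤ) ≤ (M : ℤ) ^ f.natDegree := by positivity
    nlinarith) (by
    have q1 : (En p (fun i : Fin M => c + f.eval (((i : ℕ) + 1 : ℕ) : ℤ)) : ℝ) * Y =
        (B' + 1) * ((En p (fun i : Fin M => c + f.eval (((i : ℕ) + 1 : ℕ) : ℤ)) : ℝ) * (M ^ f.natDegree : ℕ)) := by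
      rw [hY]
      push_cast
      ring
    rw [q1]
    calc (B' + 1 : ℝ) * ((En p (fun i : Fin M => c + f.eval (((i : ℕ) + 1 : ℕ) : ℤ)) : ℝ) * (M ^ f.natDegree : ℕ))
        ≤ Real.log Y * (Real.log (M ^ f.natDegree : ℕ) ^ 1 * (Fintype.card (Fin M) : ℝ) ^ (2 * p)) := by
          apply mul_le_mul (hLB.trans hlY) k2 (by positivity) (by linarith)
      _ ≤ Real.log Y * (Real.log Y * (Fintype.card (Fin M) : ℝ) ^ (2 * p)) := by
          apply mul_le_mul_of_nonneg_left _ (by linarith)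
          rw [pow_one]
          exact mul_le_mul_of_nonneg_right hlp (by positivity)
      _ = _ := by ring) S hS
  rw [Fintype.card_fin] at key
  refine key.trans ?_
  apply div_le_div_of_nonneg_left hM0.le (by positivity)
  exact pow_le_pow_left₀ (by linarith) hlY _

end Pool.Agent.TH212.HV
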